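import Mathlib
import Pool.Agent.Lib.MP_6441f0_al.EvenGroup
import Pool.Agent.Lib.MP_6441f0_al.OddGroup

set_option autoImplicit false

namespace Pool.Agent.Results.MP_6441f0_al.AllPrimes

open Pool.Agent.Lib.MP_6441f0_al

/-- For every prime `p` and every `f ≥ 2` there is a finite `p`-group with character degrees
`1, p ^ f, p ^ (2 f)` whose second derived subgroup is nontrivial. -/
theorem result (p f : ℕ) (hp : p.Prime) (hf : 2 ≤ f) :
    ∃ (P : Type) (_ : Group P) (_ : Finite P) (cd : Set ℕ), IsPGroup p P ∧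
      cd = {n : ℕ | ∃ (V : Type) (_ : AddCommGroup V) (_ : Module ℂ V)
        (_ : FiniteDimensional ℂ V) (ρ : Representation ℂ P V),
        ρ.IsIrreducible ∧ ρ.character 1 = n} ∧
      cd = {1, p ^ f, p ^ (2 * f)} ∧ cd.ncard = 3 ∧ p ∉ cd ∧ derivedSeries P 2 ≠ ⊥ := by
  have : Fact p.Prime := ⟨hp⟩
  have : Fintype (GaloisField p f) := Fintype.ofFinite _
  have hcardN : Nat.card (GaloisField p f) = p ^ f := GaloisField.card p f (by omega)
  have hcard : Fintype.card (GaloisField p f) = p ^ f := by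
    rw [← Nat.card_eq_fintype_card, hcardN]
  have hp1 : 1 < p := hp.one_lt
  have e1 : p ^ 1 < p ^ f := Nat.pow_lt_pow_right hp1 (by omega)
  have e2 : p ^ f < p ^ (2 * f) := Nat.pow_lt_pow_right hp1 (by omega)
  rw [pow_one] at e1
  have hn : ({1, p ^ f, p ^ (2 * f)} : Set ℕ).ncard = 3 := by
    rw [Set.ncard_eq_three]
    exact ⟨1, p ^ f, p ^ (2 * f), by omega, by omega, by omega, rfl⟩
  have hm : p ∉ ({1, p ^ f, p ^ (2 * f)} : Set ℕ) := by
    simp only [Set.mem_insert_iff, Set.mem_singleton_iff]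
    omega
  by_cases hp2 : p = 2
  · subst hp2
    have hdeg := EG.dims_EG (K := GaloisField 2 f)
    rw [hcard, ← pow_mul, mul_comm f 2, dims_eq] at hdeg
    have hd := EG.card_dvd (K := GaloisField 2 f)
    rw [hcardN, ← pow_mul] at hd
    obtain ⟨m, -, hm'⟩ := (Nat.dvd_prime_pow hp).1 hd
    exact ⟨EG (GaloisField 2 f), inferInstance, inferInstance, _, IsPGroup.of_card hm',
      hdeg.symm, rfl, hn, hm, EG.derived_EG⟩
  · have h2 : (2 : GaloisField p f) ≠ 0 := by
      intro h0
      have := Nat.le_of_dvd (by norm_num)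
        ((CharP.cast_eq_zero_iff (GaloisField p f) p 2).1 (by exact_mod_cast h0))
      omega
    have hdeg := OG.dims_OG (K := GaloisField p f) h2
    rw [hcard, ← pow_mul, mul_comm f 2, dims_eq] at hdeg
    exact ⟨OG (GaloisField p f), inferInstance, inferInstance, _,
      IsPGroup.of_card (n := f * 7) (by rw [OG.card, hcardN, ← pow_mul]),
      hdeg.symm, rfl, hn, hm, OG.derived_OG h2⟩

end Pool.Agent.Results.MP_6441f0_al.AllPrimes
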