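import Mathlib
import Pool.Agent.Lib.MP_6441f0_al.ND.Core

set_option autoImplicit false

namespace Pool.Agent.Results.MP_6441f0_al.NarrowDegrees

open Pool.Agent.Lib.MP_6441f0_al

/-- A finite `p`-group whose non-linear character degrees lie in `[p ^ a, p ^ b]` with
`2 b < 3 a` is metabelian. -/
theorem result (p a b : ℕ) (hp : p.Prime) (hab : 2 * b < 3 * a)
    (P : Type) [Group P] [Finite P] (hP : IsPGroup p P)
    (hcd : ∀ n ∈ {n : ℕ | ∃ (V : Type) (_ : AddCommGroup V) (_ : Module ℂ V)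
        (_ : FiniteDimensional ℂ V) (ρ : Representation ℂ P V),
        ρ.IsIrreducible ∧ ρ.character 1 = n}, n = 1 ∨ (p ^ a ≤ n ∧ n ≤ p ^ b)) :
    derivedSeries P 2 = ⊥ := by
  rw [← dims_eq] at hcd
  refine ND.metab hp (Nat.one_le_pow b p hp.pos) ?_ _ P rfl hP hcd
  rw [← pow_mul, ← pow_mul]
  calc 2 * p ^ (b * 2) ≤ p * p ^ (b * 2) := Nat.mul_le_mul_right _ hp.two_le
    _ = p ^ (b * 2 + 1) := by ring
    _ ≤ _ := Nat.pow_le_pow_right hp.pos (by omega)

end Pool.Agent.Results.MP_6441f0_al.NarrowDegrees
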